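import Mathlib
import Pool.Agent.X19.MG.Union

open Set Pool.Agent.X19.MG

namespace Pool.Agent.Results.MP_0eca13_an.UniqueMGHD

/-- For every initial datum `(φ0, φ1)`: any two maximal globally hyperbolic developments coincide;
and if the datum has a globally hyperbolic development at all, then there is a maximal one, which
contains every globally hyperbolic development of the datum. -/
theorem result (φ0 φ1 : ℝ → ℝ) :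
    (∀ (Ω1 Ω2 : Set (ℝ × ℝ)) (Φ1 Φ2 : ℝ × ℝ → ℝ),
      IsMGHD φ0 φ1 Ω1 Φ1 → IsMGHD φ0 φ1 Ω2 Φ2 → Ω1 = Ω2 ∧ EqOn Φ1 Φ2 Ω1) ∧
    ((∃ (Ω : Set (ℝ × ℝ)) (Φ : ℝ × ℝ → ℝ), IsGHD φ0 φ1 Ω Φ) →
      ∃ (Ω : Set (ℝ × ℝ)) (Φ : ℝ × ℝ → ℝ), IsMGHD φ0 φ1 Ω Φ ∧
        ∀ (Ω' : Set (ℝ × ℝ)) (Φ' : ℝ × ℝ → ℝ), IsGHD φ0 φ1 Ω' Φ' →
          Ω' ⊆ Ω ∧ EqOn Φ Φ' Ω') :=
  ⟨fun _ _ _ _ h1 h2 => mghd_unique h1 h2, fun h => mghd_exists h⟩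

end Pool.Agent.Results.MP_0eca13_an.UniqueMGHD
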